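import Mathlib

/-!
# Ladders: lower bounds for paths
-/

set_option autoImplicit false

namespace Pool.Agent.X248.EL

open Finset

variable {I : Type} [DecidableEq I]

/-- Parity of the number of changes. -/
theorem parity_changes (s : ℕ → Bool) (a : ℕ) : ∀ b, a ≤ b →
    (#{k ∈ Ico a b | s k ≠ s (k + 1)} % 2 = 1 ↔ s a ≠ s b) := by
  intro b hab
  induction b, hab using Nat.le_induction with
  | base => simp
  | succ b hab ih =>
    have h1 : Ico a (b + 1) = insert b (Ico a b) := by
      ext k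
      simp only [mem_Ico, mem_insert]
      omega
    rw [h1, filter_insert]
    by_cases h2 : s b ≠ s (b + 1)
    · rw [if_pos h2, card_insert_of_notMem (by simp)]
      rcases Bool.eq_or_eq_not (s a) (s b) with h3 | h3
      · have h4 : ¬ (s a ≠ s b) := by simp [h3]
        rw [← ih] at h4
        have h5 : s a ≠ s (b + 1) := by rw [h3]; exact h2
        exact ⟨fun _ => h5, fun _ => by omega⟩
      · have h4 : s a ≠ s b := by rw [h3]; cases s b <;> simp
        have h6 := ih.2 h4
        have h5 : s a = s (b + 1) := by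
          rw [h3]
          revert h2
          cases s b <;> cases s (b + 1) <;> simp
        constructor
        · intro h7; omega
        · intro h7; exact absurd h5 h7
    · rw [if_neg h2]
      push Not at h2
      rw [ih, h2]

/-- A sequence which is once left and once right changes in between. -/
theorem exists_change (s : ℕ → Bool) {a b : ℕ} (hab : a ≤ b) (h : s a ≠ s b) :
    ∃ k, a ≤ k ∧ k < b ∧ s k ≠ s (k + 1) := by
  have h1 := (parity_changes s a b hab).2 h
  have h2 : 0 < #{k ∈ Ico a b | s k ≠ s (k + 1)} := by omega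
  obtain ⟨k, hk⟩ := card_pos.1 h2
  rw [mem_filter, mem_Ico] at hk
  exact ⟨k, hk.1.1, hk.1.2, hk.2⟩

/-- The variation of a sequence of integers. -/
theorem variation_ge (j : ℕ → ℤ) {a b : ℕ} (hab : a ≤ b) :
    |j b - j a| ≤ ∑ k ∈ Ico a b, |j (k + 1) - j k| := by
  have h1 : j b - j a = ∑ k ∈ Ico a b, (j (k + 1) - j k) := (sum_Ico_sub j hab).symm
  rw [h1]
  exact abs_sum_le_sum_abs _ _

theorem split3 (f : ℕ → ℤ) {a b M : ℕ} (hab : a ≤ b) (hbM : b ≤ M) :
    ∑ k ∈ range M, f k = ∑ k ∈ Ico 0 a, f k + ∑ k ∈ Ico a b, f k + ∑ k ∈ Ico b M, f k := by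
  rw [range_eq_Ico, sum_Ico_consecutive _ (Nat.zero_le a) hab,
    sum_Ico_consecutive _ (Nat.zero_le b) hbM]

/-- If the variation is minimal, the sequence is monotone. -/
theorem mono_of_variation {j : ℕ → ℤ} {J : ℤ} {M a b : ℕ} (hab : a ≤ b) (hbM : b ≤ M)
    (ha : j a = 0) (hb : j b = J) (hJ : 0 ≤ J)
    (hv : ∑ k ∈ range M, |j (k + 1) - j k| ≤ J) : ∀ k < M, j k ≤ j (k + 1) := by
  rw [split3 _ hab hbM] at hv
  have h1 : |j b - j a| ≤ ∑ k ∈ Ico a b, |j (k + 1) - j k| := variation_ge j hab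
  rw [ha, hb, sub_zero, abs_of_nonneg hJ] at h1
  have h2 : 0 ≤ ∑ k ∈ Ico 0 a, |j (k + 1) - j k| := sum_nonneg fun _ _ => abs_nonneg _
  have h3 : 0 ≤ ∑ k ∈ Ico b M, |j (k + 1) - j k| := sum_nonneg fun _ _ => abs_nonneg _
  have e2 : ∑ k ∈ Ico 0 a, |j (k + 1) - j k| = 0 := by linarith
  have e3 : ∑ k ∈ Ico b M, |j (k + 1) - j k| = 0 := by linarith
  have e1 : ∑ k ∈ Ico a b, (|j (k + 1) - j k| - (j (k + 1) - j k)) = 0 := by
    rw [sum_sub_distrib, sum_Ico_sub j hab, ha, hb]
    linarith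
  rw [sum_eq_zero_iff_of_nonneg (fun _ _ => abs_nonneg _)] at e2 e3
  rw [sum_eq_zero_iff_of_nonneg (fun k _ => by linarith [le_abs_self (j (k + 1) - j k)])] at e1
  intro k hk
  rcases Nat.lt_or_ge k a with h4 | h4
  · have := abs_eq_zero.1 (e2 k (mem_Ico.2 ⟨Nat.zero_le _, h4⟩))
    linarith
  rcases Nat.lt_or_ge k b with h5 | h5
  · have h6 := e1 k (mem_Ico.2 ⟨h4, h5⟩)
    have h7 := abs_nonneg (j (k + 1) - j k)
    linarith
  · have := abs_eq_zero.1 (e3 k (mem_Ico.2 ⟨h5, hk⟩))
    linarith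

/-- A ladder: cities on levels `0, ..., J`, with two sides; `U` is the set of the levels with
cities on both sides, `w` the distance of the two sides of a level, `L₀` the level of a city
above which the crossings are counted, and `P` the penalty of a crossing between levels. -/
structure Ladder (I : Type) (J L₀ : ℕ) (R P : ℝ) where
  lev : I → ℕ
  sd : I → Bool
  d : I → I → ℝ
  U : Finset ℕ
  w : ℕ → ℝ
  bot : I
  top : I
  s : I
  symm : ∀ a b, d a b = d b a
  R_nonneg : 0 ≤ R
  dist_lev : ∀ a b, R * |(lev a : ℝ) - lev b| ≤ d a b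
  lev_le : ∀ a, lev a ≤ J
  bot_lev : lev bot = 0
  bot_unique : ∀ a, lev a = 0 → a = bot
  top_lev : lev top = J
  top_unique : ∀ a, lev a = J → a = top
  s_lev : lev s = L₀
  s_unique : ∀ a, lev a = L₀ → a = s
  L₀_lt : L₀ < J
  U_sub : ∀ l ∈ U, 0 < l ∧ l < J ∧ l ≠ L₀
  U_both : ∀ l ∈ U, ∃ a b, lev a = l ∧ lev b = l ∧ sd a = false ∧ sd b = true
  width : ∀ a b, lev a = lev b → lev a ∈ U → sd a ≠ sd b → w (lev a) ≤ d a b
  cross : ∀ a b, L₀ ≤ lev a → lev a ≤ lev b → sd a ≠ sd b → R * ((lev b : ℝ) - lev a) + P ≤ d a b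

variable {J L₀ : ℕ} {R P : ℝ}

/-- The lower bound for monotone paths. -/
theorem Ladder.mono_bound (l : Ladder I J L₀ R P) {M : ℕ} {c : ℕ → I}
    (hinj : ∀ i j, i ≤ M → j ≤ M → c i = c j → i = j) (hsurj : ∀ a, ∃ k ≤ M, c k = a)
    (hmono : ∀ k < M, l.lev (c k) ≤ l.lev (c (k + 1))) :
    c 0 = l.bot ∧ c M = l.top ∧
      R * J + ∑ t ∈ l.U, l.w t ≤ ∑ k ∈ range M, l.d (c k) (c (k + 1)) ∧
      (¬ (#(l.U.filter (fun t => L₀ < t)) % 2 = 1 ↔ l.sd l.s ≠ l.sd l.top) →
        R * J + ∑ t ∈ l.U, l.w t + P ≤ ∑ k ∈ range M, l.d (c k) (c (k + 1))) := by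
  have hmono' : ∀ a b, a ≤ b → b ≤ M → l.lev (c a) ≤ l.lev (c b) := by
    intro a b hab
    induction b, hab using Nat.le_induction with
    | base => intro _; exact le_rfl
    | succ b _ ih =>
      intro hb
      exact (ih (by omega)).trans (hmono b (by omega))
  have h0 : c 0 = l.bot := by
    obtain ⟨k, hk, hkb⟩ := hsurj l.bot
    apply l.bot_unique
    have h1 := hmono' 0 k (Nat.zero_le _) hk
    rw [hkb, l.bot_lev] at h1
    omega
  have hM : c M = l.top := by
    obtain ⟨k, hk, hkb⟩ := hsurj l.top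
    apply l.top_unique
    have h1 := hmono' k M hk le_rfl
    rw [hkb, l.top_lev] at h1
    have := l.lev_le (c M)
    omega
  -- the extra lengths
  obtain ⟨ex, hex⟩ : ∃ ex : ℕ → ℝ, ex = fun k =>
      l.d (c k) (c (k + 1)) - R * ((l.lev (c (k + 1)) : ℝ) - l.lev (c k)) := ⟨_, rfl⟩
  have hex0 : ∀ k < M, 0 ≤ ex k := by
    intro k hk
    have h1 := l.dist_lev (c k) (c (k + 1))
    have h2 : (l.lev (c k) : ℝ) ≤ l.lev (c (k + 1)) := by exact_mod_cast hmono k hk
    rw [abs_sub_comm, abs_of_nonneg (by linarith)] at h1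
    rw [hex]
    simp only
    linarith
  have hsum : ∑ k ∈ range M, l.d (c k) (c (k + 1)) = R * J + ∑ k ∈ range M, ex k := by
    rw [hex]
    simp only
    rw [sum_sub_distrib, ← mul_sum, sum_range_sub (fun k => (l.lev (c k) : ℝ)) M, h0, hM,
      l.bot_lev, l.top_lev]
    push_cast
    ring
  -- a crossing on every level
  have hcr : ∀ t : ℕ, ∃ k : ℕ, t ∈ l.U → k < M ∧ l.lev (c k) = t ∧ l.lev (c (k + 1)) = t ∧
      l.sd (c k) ≠ l.sd (c (k + 1)) := by
    intro t
    by_cases ht : t ∈ l.U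
    · obtain ⟨a, b, ha, hb, hsa, hsb⟩ := l.U_both t ht
      obtain ⟨ka, hka, rfl⟩ := hsurj a
      obtain ⟨kb, hkb, rfl⟩ := hsurj b
      have key : ∀ x y, x ≤ y → y ≤ M → l.lev (c x) = t → l.lev (c y) = t →
          l.sd (c x) ≠ l.sd (c y) → ∃ k < M, l.lev (c k) = t ∧ l.lev (c (k + 1)) = t ∧
          l.sd (c k) ≠ l.sd (c (k + 1)) := by
        intro x y hxy hyM hx hy hs
        obtain ⟨k, h1, h2, h3⟩ := exists_change (fun k => l.sd (c k)) hxy hs
        have h4 := hmono' x k h1 (by omega)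
        have h5 := hmono' (k + 1) y h2 hyM
        have h6 := hmono' k (k + 1) (by omega) (by omega)
        exact ⟨k, by omega, by omega, by omega, h3⟩
      rcases le_total ka kb with h | h
      · obtain ⟨k, h1⟩ := key ka kb h hkb ha hb (by rw [hsa, hsb]; simp)
        exact ⟨k, fun _ => h1⟩
      · obtain ⟨k, h1⟩ := key kb ka h hka hb ha (by rw [hsa, hsb]; simp)
        exact ⟨k, fun _ => h1⟩
    · exact ⟨0, fun h => absurd h ht⟩
  choose κ hκ using hcr
  have hκinj : Set.InjOn κ l.U := by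
    intro t ht t' ht' h
    have h1 := (hκ t ht).2.1
    have h2 := (hκ t' ht').2.1
    rw [h] at h1
    exact h1.symm.trans h2
  have himg : l.U.image κ ⊆ range M := by
    intro k hk
    obtain ⟨t, ht, rfl⟩ := mem_image.1 hk
    exact mem_range.2 (hκ t ht).1
  have hwex : ∀ t ∈ l.U, l.w t ≤ ex (κ t) := by
    intro t ht
    obtain ⟨h1, h2, h3, h4⟩ := hκ t ht
    have h5 := l.width (c (κ t)) (c (κ t + 1)) (by rw [h2, h3]) (by rw [h2]; exact ht) h4
    rw [h2] at h5
    rw [hex]
    simp only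
    rw [h2, h3, sub_self, mul_zero, sub_zero]
    exact h5
  have hsumU : ∑ t ∈ l.U, l.w t ≤ ∑ k ∈ l.U.image κ, ex k := by
    rw [sum_image hκinj]
    exact sum_le_sum hwex
  refine ⟨h0, hM, ?_, ?_⟩
  · rw [hsum]
    have : ∑ k ∈ l.U.image κ, ex k ≤ ∑ k ∈ range M, ex k :=
      sum_le_sum_of_subset_of_nonneg himg (fun k hk _ => hex0 k (mem_range.1 hk))
    linarith
  · intro hpar
    obtain ⟨a, ha, hca⟩ := hsurj l.s
    obtain ⟨C, hC⟩ : ∃ C, C = (Ico a M).filter (fun k => l.sd (c k) ≠ l.sd (c (k + 1))) := ⟨_, rfl⟩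
    have hCpar := parity_changes (fun k => l.sd (c k)) a M ha
    rw [← hC, hM, hca] at hCpar
    -- the crossings on the levels above `L₀`
    have hsub : (l.U.filter (fun t => L₀ < t)).image κ ⊆ C := by
      intro k hk
      obtain ⟨t, ht, rfl⟩ := mem_image.1 hk
      rw [mem_filter] at ht
      obtain ⟨h1, h2, h3, h4⟩ := hκ t ht.1
      rw [hC, mem_filter, mem_Ico]
      refine ⟨⟨?_, h1⟩, h4⟩
      by_contra h5
      push Not at h5
      have h6 := hmono' (κ t) a h5.le ha
      rw [h2, hca, l.s_lev] at h6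
      omega
    have hne : (l.U.filter (fun t => L₀ < t)).image κ ≠ C := by
      intro h1
      apply hpar
      rw [← hCpar, ← h1, card_image_of_injOn]
      exact hκinj.mono (by
        intro t ht
        exact mem_coe.2 (filter_subset _ _ (mem_coe.1 ht)))
    obtain ⟨k, hkC, hkn⟩ : ∃ k ∈ C, k ∉ (l.U.filter (fun t => L₀ < t)).image κ := by
      by_contra h1
      push Not at h1
      exact hne (Subset.antisymm hsub h1)
    rw [hC, mem_filter, mem_Ico] at hkC
    have hlevk : L₀ ≤ l.lev (c k) := by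
      have := hmono' a k hkC.1.1 hkC.1.2.le
      rw [hca, l.s_lev] at this
      exact this
    have hkn' : k ∉ l.U.image κ := by
      intro h1
      obtain ⟨t, ht, rfl⟩ := mem_image.1 h1
      obtain ⟨h2, h3, h4, h5⟩ := hκ t ht
      apply hkn
      refine mem_image.2 ⟨t, mem_filter.2 ⟨ht, ?_⟩, rfl⟩
      rw [h3] at hlevk
      have := (l.U_sub t ht).2.2
      omega
    have hP : P ≤ ex k := by
      have h1 := l.cross (c k) (c (k + 1)) hlevk (hmono k hkC.1.2) hkC.2
      rw [hex]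
      simp only
      linarith
    have h1 : ∑ k' ∈ insert k (l.U.image κ), ex k' ≤ ∑ k' ∈ range M, ex k' := by
      apply sum_le_sum_of_subset_of_nonneg
      · intro k' hk'
        rcases mem_insert.1 hk' with h2 | h2
        · rw [h2]
          exact mem_range.2 hkC.1.2
        · exact himg h2
      · intro k' hk' _
        exact hex0 k' (mem_range.1 hk')
    rw [sum_insert hkn'] at h1
    rw [hsum]
    linarith

/-- The lower bound for arbitrary paths. -/
theorem Ladder.bound (l : Ladder I J L₀ R P) {M : ℕ} {c : ℕ → I}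
    (hinj : ∀ i j, i ≤ M → j ≤ M → c i = c j → i = j) (hsurj : ∀ a, ∃ k ≤ M, c k = a) :
    R * (J + 1) ≤ ∑ k ∈ range M, l.d (c k) (c (k + 1)) ∨
    (((c 0 = l.bot ∧ c M = l.top) ∨ (c 0 = l.top ∧ c M = l.bot)) ∧
      R * J + ∑ t ∈ l.U, l.w t ≤ ∑ k ∈ range M, l.d (c k) (c (k + 1)) ∧
      (¬ (#(l.U.filter (fun t => L₀ < t)) % 2 = 1 ↔ l.sd l.s ≠ l.sd l.top) →
        R * J + ∑ t ∈ l.U, l.w t + P ≤ ∑ k ∈ range M, l.d (c k) (c (k + 1)))) := by
  obtain ⟨j, hj⟩ : ∃ j : ℕ → ℤ, j = fun k => (l.lev (c k) : ℤ) := ⟨_, rfl⟩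
  have hd : ∀ k, R * ((|j (k + 1) - j k| : ℤ) : ℝ) ≤ l.d (c k) (c (k + 1)) := by
    intro k
    have h1 := l.dist_lev (c k) (c (k + 1))
    refine le_trans (le_of_eq ?_) h1
    rw [hj]
    push_cast
    rw [abs_sub_comm]
  obtain ⟨ka, hka, hca⟩ := hsurj l.bot
  obtain ⟨kb, hkb, hcb⟩ := hsurj l.top
  have ha : j ka = 0 := by rw [hj]; simp [hca, l.bot_lev]
  have hb : j kb = J := by rw [hj]; simp [hcb, l.top_lev]
  rcases lt_or_ge (J : ℤ) (∑ k ∈ range M, |j (k + 1) - j k|) with hv | hv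
  · left
    have h1 : ((J : ℝ) + 1) ≤ ((∑ k ∈ range M, |j (k + 1) - j k| : ℤ) : ℝ) := by exact_mod_cast hv
    calc R * (J + 1) ≤ R * ((∑ k ∈ range M, |j (k + 1) - j k| : ℤ) : ℝ) :=
          mul_le_mul_of_nonneg_left h1 l.R_nonneg
      _ = ∑ k ∈ range M, R * ((|j (k + 1) - j k| : ℤ) : ℝ) := by
          rw [← mul_sum]
          push_cast
          rfl
      _ ≤ _ := sum_le_sum fun k _ => hd k
  · right
    rcases le_total ka kb with h | h
    · have hm := mono_of_variation h hkb ha hb (by positivity) hv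
      have hm' : ∀ k < M, l.lev (c k) ≤ l.lev (c (k + 1)) := by
        intro k hk
        have := hm k hk
        rw [hj] at this
        simp only at this
        exact_mod_cast this
      obtain ⟨h1, h2, h3, h4⟩ := l.mono_bound hinj hsurj hm'
      exact ⟨Or.inl ⟨h1, h2⟩, h3, h4⟩
    · -- the reverse path
      have hrev : ∀ f : ℕ → ℝ, ∑ k ∈ range M, f (M - 1 - k) = ∑ k ∈ range M, f k :=
        fun f => sum_range_reflect f M
      have hrevz : ∀ f : ℕ → ℤ, ∑ k ∈ range M, f (M - 1 - k) = ∑ k ∈ range M, f k :=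
        fun f => sum_range_reflect f M
      have hv' : ∑ k ∈ range M, |j (M - (k + 1)) - j (M - k)| ≤ J := by
        refine le_trans (le_of_eq ?_) hv
        rw [← hrevz]
        refine sum_congr rfl fun k hk => ?_
        rw [mem_range] at hk
        rw [show M - (M - 1 - k + 1) = k by omega, show M - (M - 1 - k) = k + 1 by omega,
          abs_sub_comm]
      have hm := mono_of_variation (j := fun k => j (M - k)) (a := M - ka) (b := M - kb)
        (by omega) (by omega) (by rw [show M - (M - ka) = ka by omega, ha])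
        (by rw [show M - (M - kb) = kb by omega, hb]) (by positivity) hv'
      have hm' : ∀ k < M, l.lev (c (M - k)) ≤ l.lev (c (M - (k + 1))) := by
        intro k hk
        have := hm k hk
        rw [hj] at this
        simp only at this
        exact_mod_cast this
      obtain ⟨h1, h2, h3, h4⟩ := l.mono_bound (c := fun k => c (M - k)) (M := M)
        (by
          intro x y hx hy hxy
          have := hinj (M - x) (M - y) (by omega) (by omega) hxy
          omega)
        (by
          intro a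
          obtain ⟨k, hk, hka⟩ := hsurj a
          exact ⟨M - k, by omega, by rw [show M - (M - k) = k by omega, hka]⟩) hm'
      have hs : ∑ k ∈ range M, l.d (c (M - k)) (c (M - (k + 1))) =
          ∑ k ∈ range M, l.d (c k) (c (k + 1)) := by
        rw [← hrev]
        refine sum_congr rfl fun k hk => ?_
        rw [mem_range] at hk
        rw [show M - (M - 1 - k + 1) = k by omega, show M - (M - 1 - k) = k + 1 by omega]
        exact l.symm _ _
      simp only [Nat.sub_zero, Nat.sub_self] at h1 h2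
      rw [hs] at h3 h4
      exact ⟨Or.inr ⟨h2, h1⟩, h3, h4⟩

end Pool.Agent.X248.EL
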