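import Pool.Agent.H553R2.TSP.Model

/-!
# Ladders: a short path
-/

set_option autoImplicit false

namespace Pool.Agent.X248.EL

open Finset Pool.Agent.H553R2.TSP

variable {I : Type}

/-- The length of a path. -/
noncomputable def plen (d : I → I → ℝ) : List I → ℝ
  | [] => 0
  | [_] => 0
  | x :: y :: l => d x y + plen d (y :: l)

theorem plen_append (d : I → I → ℝ) (x y : I) (l₂ : List I) : ∀ l₁ : List I,
    plen d (l₁ ++ [x] ++ y :: l₂) = plen d (l₁ ++ [x]) + d x y + plen d (y :: l₂) := by
  intro l₁
  induction l₁ with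
  | nil => simp [plen]
  | cons a l ih =>
    cases l with
    | nil => simp [plen]; ring
    | cons b l =>
      simp only [List.cons_append, plen] at ih ⊢
      rw [ih]
      ring

theorem plen_reverse {d : I → I → ℝ} (hd : ∀ a b, d a b = d b a) : ∀ l : List I,
    plen d l.reverse = plen d l := by
  intro l
  induction l with
  | nil => rfl
  | cons a l ih =>
    cases l with
    | nil => rfl
    | cons b l =>
      have h1 : (a :: b :: l).reverse = l.reverse ++ [b] ++ [a] := by simp
      rw [h1, show (l.reverse ++ [b] ++ [a] : List I) = l.reverse ++ [b] ++ a :: [] from rfl,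
        plen_append]
      rw [List.reverse_cons] at ih
      rw [ih]
      simp only [plen]
      rw [hd b a]
      ring

theorem plen_eq_sum (d : I → I → ℝ) (x₀ : I) : ∀ l : List I,
    plen d l = ∑ k ∈ range (l.length - 1), d (l.getD k x₀) (l.getD (k + 1) x₀) := by
  intro l
  induction l with
  | nil => simp [plen]
  | cons a l ih =>
    cases l with
    | nil => simp [plen]
    | cons b l =>
      simp only [List.length_cons, Nat.add_sub_cancel] at ih ⊢
      rw [sum_range_succ']
      simp only [plen, ih, List.getD_cons_succ, List.getD_cons_zero]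
      ring

/-- A list of all cities gives a tour. -/
theorem tour_of_list {n : ℕ} (p : Fin n → ℤ × ℤ) (q : Fin n) (l : List (Fin n))
    (hnd : (q :: l).Nodup) (hlen : (q :: l).length = n) : ∃ σ : Equiv.Perm (Fin n),
      tourLength p σ = plen (fun a b => H553R2.TSP.edist (p a) (p b)) ((q :: l) ++ [q]) := by
  obtain ⟨m, rfl⟩ : ∃ m, n = m + 1 := ⟨n - 1, by have := q.isLt; omega⟩
  have hget : Function.Injective (fun i : Fin (m + 1) => (q :: l).getD i.val q) := by
    intro i j h
    simp only at h
    rw [List.getD_eq_getElem _ _ (by omega), List.getD_eq_getElem _ _ (by omega)] at h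
    exact Fin.ext ((List.Nodup.getElem_inj_iff hnd).1 h)
  have hbij := (Finite.injective_iff_bijective).1 hget
  refine ⟨Equiv.ofBijective _ hbij, ?_⟩
  rw [plen_eq_sum _ q]
  have h1 : ((q :: l) ++ [q]).length - 1 = m + 1 := by
    rw [List.length_append, hlen]
    simp
  rw [h1, ← Fin.sum_univ_eq_sum_range (fun k => H553R2.TSP.edist (p (((q :: l) ++ [q]).getD k q))
    (p (((q :: l) ++ [q]).getD (k + 1) q))) (m + 1)]
  unfold tourLength
  refine sum_congr rfl fun i _ => ?_
  have e1 : ∀ k, k < m + 1 → ((q :: l) ++ [q]).getD k q = (q :: l).getD k q := by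
    intro k hk
    rw [List.getD_append _ _ _ _ (by omega)]
  have e2 : ((q :: l) ++ [q]).getD (m + 1) q = q := by
    rw [List.getD_append_right _ _ _ _ (by omega), hlen]
    simp
  have e3 : ((q :: l) ++ [q]).getD (i.val + 1) q = (q :: l).getD ((finRotate (m + 1) i).val) q := by
    rcases Nat.lt_or_ge i.val m with h | h
    · rw [e1 _ (by omega), finRotate_apply, Fin.val_add_one_of_lt (by
        rw [Fin.lt_def, Fin.val_last]; exact h)]
    · have h2 : i = Fin.last m := Fin.ext (by
        have := i.isLt
        rw [Fin.val_last]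
        omega)
      rw [h2, finRotate_last, Fin.val_last, e2]
      simp
  rw [e1 _ i.isLt, e3]
  rfl

/-- The data for a short path through some levels. -/
structure Sect (I : Type) (R e₁ e₂ : ℝ) where
  lev : I → ℕ
  sd : I → Bool
  d : I → I → ℝ
  U : ℕ → Prop
  w : ℕ → ℝ
  asc : ℕ → List I
  symm : ∀ a b, d a b = d b a
  asc_lev : ∀ t, ∀ x ∈ asc t, lev x = t
  asc_nodup : ∀ t, (asc t).Nodup
  asc_not : ∀ t, ¬ U t → asc t = []
  asc_ends : ∀ t, U t → ∃ x l y, asc t = x :: l ++ [y] ∧ sd x = false ∧ sd y = true
  asc_len : ∀ t, U t → plen d (asc t) ≤ w t + e₁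

variable {R e₁ e₂ : ℝ}

open Classical in
/-- A short path through the levels `a, ..., b - 1`. -/
theorem Sect.exists_path (S : Sect I R e₁ e₂) (z₀ : I) (a : ℕ) (hz : S.lev z₀ < a)
    (hs : S.sd z₀ = false)
    (b : ℕ) (hab : a ≤ b)
    (htr : ∀ x y, (x = z₀ ∨ a ≤ S.lev x) → a ≤ S.lev y → S.lev y < b → S.lev x < S.lev y →
      S.sd x = S.sd y → S.d x y ≤ R * ((S.lev y : ℝ) - S.lev x) + e₂) :
    ∃ l : List I, l.Nodup ∧ (∀ x, x ∈ l ↔ ∃ t, a ≤ t ∧ t < b ∧ x ∈ S.asc t) ∧
      ∃ (l' : List I) (z : I), z₀ :: l = l' ++ [z] ∧ S.lev z < b ∧ (z = z₀ ∨ a ≤ S.lev z) ∧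
        S.sd z = decide (#((Ico a b).filter S.U) % 2 = 1) ∧
        plen S.d (z₀ :: l) ≤ R * ((S.lev z : ℝ) - S.lev z₀) +
          ∑ t ∈ (Ico a b).filter S.U, (S.w t + e₁ + e₂) := by
  revert htr
  induction b, hab using Nat.le_induction with
  | base =>
    intro _
    refine ⟨[], List.nodup_nil, ?_, [], z₀, rfl, hz, Or.inl rfl, ?_, ?_⟩
    · intro x
      simp only [List.not_mem_nil, false_iff]
      rintro ⟨t, h1, h2, -⟩
      omega
    · rw [hs]
      simp
    · simp [plen]
  | succ b hab ih =>
    intro htr
    obtain ⟨l, h1, h2, l', z, h3, h4, h5, h6, h7⟩ := ih (fun x y hx hy hy' => htr x y hx hy (by omega))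
    have hIco : Ico a (b + 1) = insert b (Ico a b) := by
      ext k
      simp only [mem_Ico, mem_insert]
      omega
    by_cases hU : S.U b
    · obtain ⟨x, m, y, e1, e2, e3⟩ := S.asc_ends b hU
      have hx : S.lev x = b := S.asc_lev b x (by rw [e1]; simp)
      have hy : S.lev y = b := S.asc_lev b y (by rw [e1]; simp)
      have hfilt : (Ico a (b + 1)).filter S.U = insert b ((Ico a b).filter S.U) := by
        rw [hIco, filter_insert, if_pos hU]
      have hnb : b ∉ (Ico a b).filter S.U := by simp
      have hdisj : ∀ v ∈ l, v ∉ S.asc b := by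
        intro v hv hvb
        obtain ⟨t, -, ht, hvt⟩ := (h2 v).1 hv
        have := S.asc_lev t v hvt
        have := S.asc_lev b v hvb
        omega
      -- the order of the cities of the new level
      obtain ⟨o, x', m', y', e4, e5, e6, e7, e8, e9, e10⟩ : ∃ (o : List I) (x' : I) (m' : List I)
          (y' : I), o = x' :: m' ++ [y'] ∧ o.Perm (S.asc b) ∧ S.sd x' = S.sd z ∧
          S.sd y' = !S.sd z ∧ plen S.d o ≤ S.w b + e₁ ∧ S.lev x' = b ∧ S.lev y' = b := by
        cases hz' : S.sd z with
        | false =>
          exact ⟨S.asc b, x, m, y, e1, List.Perm.refl _, by rw [e2], by rw [e3]; rfl,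
            S.asc_len b hU, hx, hy⟩
        | true =>
          refine ⟨(S.asc b).reverse, y, m.reverse, x, ?_, List.reverse_perm _, by rw [e3],
            by rw [e2]; rfl, ?_, hy, hx⟩
          · rw [e1]
            simp
          · rw [plen_reverse S.symm]
            exact S.asc_len b hU
      have hlz : S.lev z < S.lev x' := by rw [e9]; exact h4
      have hdz := htr z x' h5 (by omega) (by omega) hlz e6.symm
      refine ⟨l ++ o, ?_, ?_, l' ++ [z] ++ x' :: m', y', ?_, ?_, ?_, ?_, ?_⟩
      · rw [List.nodup_append]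
        refine ⟨h1, (e5.nodup_iff).2 (S.asc_nodup b), ?_⟩
        intro u hu v hv huv
        rw [← huv, e5.mem_iff] at hv
        exact hdisj u hu hv
      · intro v
        rw [List.mem_append, h2, e5.mem_iff]
        constructor
        · rintro (⟨t, ht1, ht2, ht3⟩ | hv)
          · exact ⟨t, ht1, by omega, ht3⟩
          · exact ⟨b, hab, by omega, hv⟩
        · rintro ⟨t, ht1, ht2, ht3⟩
          rcases Nat.lt_or_ge t b with h | h
          · exact Or.inl ⟨t, ht1, h, ht3⟩
          · have : t = b := by omega
            rw [this] at ht3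
            exact Or.inr ht3
      · rw [← List.cons_append, h3, e4]
        simp
      · omega
      · right
        omega
      · rw [hfilt, card_insert_of_notMem hnb, e7, h6]
        by_cases h8 : #((Ico a b).filter S.U) % 2 = 1
        · rw [decide_eq_true h8, decide_eq_false (by omega)]
          rfl
        · rw [decide_eq_false h8, decide_eq_true (by omega)]
          rfl
      · rw [hfilt, sum_insert hnb]
        have h8 : (z₀ :: (l ++ o) : List I) = l' ++ [z] ++ x' :: (m' ++ [y']) := by
          rw [← List.cons_append, h3, e4]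
          simp
        rw [h8, plen_append]
        have h9 : (x' :: (m' ++ [y']) : List I) = o := by rw [e4]; simp
        rw [h9, ← h3]
        rw [e9] at hdz
        rw [e10]
        linarith
    · have hfilt : (Ico a (b + 1)).filter S.U = (Ico a b).filter S.U := by
        rw [hIco, filter_insert, if_neg hU]
      rw [hfilt]
      refine ⟨l, h1, ?_, l', z, h3, by omega, h5, h6, h7⟩
      intro v
      rw [h2]
      constructor
      · rintro ⟨t, ht1, ht2, ht3⟩
        exact ⟨t, ht1, by omega, ht3⟩
      · rintro ⟨t, ht1, ht2, ht3⟩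
        refine ⟨t, ht1, ?_, ht3⟩
        by_contra h
        have : t = b := by omega
        rw [this, S.asc_not b hU] at ht3
        exact absurd ht3 (by simp)

end Pool.Agent.X248.EL
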